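import Pool.Agent.QNP.Low
import Pool.Agent.Lib.ANT.SW
import Pool.Agent.E139P.Cheb

set_option autoImplicit false

/-!
# Primes `q (n - p) + 1` and `q (n - p) - 1`: how many `n` have a witness

`q m` is the number of partitions of `m` into distinct parts.
-/

namespace Pool.Agent.Results.MP_9f1297_nt.WitnessCount

open Filter

/-- the number of sets of positive integers with sum `m` (strict partitions of `m`) -/
def q (m : ℕ) : ℕ := ((Finset.Icc 1 m).powerset.filter fun s => ∑ i ∈ s, i = m).card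

/-- `q m + 1` is prime -/
def P1 (m : ℕ) : Prop := (q m + 1).Prime

/-- `q m - 1` is prime -/
def P2 (m : ℕ) : Prop := (q m - 1).Prime

/-- there is a prime `p < n` such that `n - p ≤ B` has the property `W` -/
def Rep (W : ℕ → Prop) (B n : ℕ) : Prop := ∃ p : ℕ, p.Prime ∧ p < n ∧ n - p ≤ B ∧ W (n - p)

/-- the number of `n ≤ N` which are in `Rep W B` -/
noncomputable def H (W : ℕ → Prop) (B N : ℕ) : ℕ := {n : ℕ | n ≤ N ∧ Rep W B n}.ncard

/-- the number of `1 ≤ m ≤ B` with the property `W` -/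
noncomputable def M (W : ℕ → Prop) (B : ℕ) : ℕ := {m : ℕ | 1 ≤ m ∧ m ≤ B ∧ W m}.ncard

/-- the `n ≤ N` for which `n - m` is a prime -/
def A (m N : ℕ) : Finset ℕ := (Finset.Icc 1 N).filter fun n => (n - m).Prime

theorem primeCounting_card (x : ℕ) :
    x.primeCounting = ((Finset.range (x + 1)).filter Nat.Prime).card := by
  rw [Nat.primeCounting, Nat.primeCounting', Nat.count_eq_card_filter_range]

theorem card_A_ge (m N : ℕ) : (N - m).primeCounting ≤ (A m N).card := by
  rw [primeCounting_card]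
  refine Finset.card_le_card_of_injOn (fun p => p + m) ?_ ?_
  · intro p hp
    rw [Finset.mem_coe, Finset.mem_filter, Finset.mem_range] at hp
    have h2 := hp.2.two_le
    rw [Finset.mem_coe, A, Finset.mem_filter, Finset.mem_Icc]
    refine ⟨⟨by dsimp only; omega, by dsimp only; omega⟩, ?_⟩
    dsimp only
    rw [Nat.add_sub_cancel]
    exact hp.2
  · intro p _ p' _ h
    dsimp only at h
    omega

theorem card_A_le (m N : ℕ) : (A m N).card ≤ N.primeCounting := by
  rw [primeCounting_card]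
  refine Finset.card_le_card_of_injOn (fun n => n - m) ?_ ?_
  · intro n hn
    rw [Finset.mem_coe, A, Finset.mem_filter, Finset.mem_Icc] at hn
    rw [Finset.mem_coe, Finset.mem_filter, Finset.mem_range]
    exact ⟨by dsimp only; omega, hn.2⟩
  · intro n hn n' hn' h
    rw [Finset.mem_coe, A, Finset.mem_filter] at hn hn'
    have h1 := hn.2.two_le
    have h2 := hn'.2.two_le
    dsimp only at h
    omega

theorem card_inter_even {m m' N : ℕ} (hm : m < m') :
    (A m N ∩ A m' N).card ≤ Pool.Agent.HL26.tupleCount (N : ℝ) {0, m' - m} := by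
  unfold Pool.Agent.HL26.tupleCount
  rw [Nat.floor_natCast]
  refine Finset.card_le_card_of_injOn (fun n => n - m') ?_ ?_
  · intro n hn
    rw [Finset.mem_coe, Finset.mem_inter, A, A, Finset.mem_filter, Finset.mem_filter,
      Finset.mem_Icc] at hn
    obtain ⟨⟨⟨h1, h2⟩, h3⟩, ⟨_, h4⟩⟩ := hn
    rw [Finset.mem_coe, Finset.mem_filter, Finset.mem_Icc]
    have h7 := h4.two_le
    refine ⟨⟨by dsimp only; omega, by dsimp only; omega⟩, ?_⟩
    intro e he
    rw [Finset.mem_insert, Finset.mem_singleton] at he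
    rcases he with rfl | rfl
    · rw [add_zero]
      exact h4
    · have h8 : n - m' + (m' - m) = n - m := by omega
      dsimp only
      rw [h8]
      exact h3
  · intro n hn n' hn' hnn
    rw [Finset.mem_coe, Finset.mem_inter, A, A, Finset.mem_filter, Finset.mem_filter] at hn hn'
    have h1 := hn.2.2.two_le
    have h2 := hn'.2.2.two_le
    dsimp only at hnn
    omega

theorem card_inter_odd {m m' N : ℕ} (hm : m < m') (ho : ¬ Even (m' - m)) :
    (A m N ∩ A m' N).card ≤ 1 := by
  rw [Finset.card_le_one]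
  have key : ∀ n ∈ A m N ∩ A m' N, n = m' + 2 := by
    intro n hn
    rw [Finset.mem_inter, A, A, Finset.mem_filter, Finset.mem_filter] at hn
    obtain ⟨⟨_, h3⟩, ⟨_, h4⟩⟩ := hn
    have h5 := h3.two_le
    have h6 := h4.two_le
    rw [Nat.not_even_iff] at ho
    rcases h4.eq_two_or_odd with h | h
    · omega
    · rcases h3.eq_two_or_odd with h' | h'
      · omega
      · omega
  intro a ha b hb
  rw [key a ha, key b hb]

theorem admissible (d : ℕ) (hd : Even d) (p : ℕ) (hp : p.Prime) :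
    Pool.Agent.HL26.nu {0, d} p < p := by
  unfold Pool.Agent.HL26.nu
  have h1 : (({0, d} : Finset ℕ).image (fun e : ℕ => (e : ZMod p))).card ≤ 2 :=
    Finset.card_image_le.trans Finset.card_le_two
  rcases hp.two_le.lt_or_eq with h2 | h2
  · omega
  · subst h2
    have h3 : ({0, d} : Finset ℕ).image (fun e : ℕ => (e : ZMod 2)) = {0} := by
      rw [Finset.image_insert, Finset.image_singleton]
      have h4 : ((d : ℕ) : ZMod 2) = 0 := (ZMod.natCast_eq_zero_iff _ _).2 hd.two_dvd
      rw [h4]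
      simp
    rw [h3]
    simp

theorem small_const (c : ℝ) {ε : ℝ} (hε : 0 < ε) :
    ∀ᶠ N : ℕ in atTop, c ≤ ε * (N / Real.log N) := by
  have h := (Real.isLittleO_log_id_atTop.bound (show (0 : ℝ) < ε / (|c| + 1) by positivity))
  filter_upwards [tendsto_natCast_atTop_atTop.eventually h, eventually_ge_atTop 3] with N h4 h5
  have hN : (3 : ℝ) ≤ N := by exact_mod_cast h5
  have hl : 0 < Real.log N := Real.log_pos (by linarith)
  rw [id, Real.norm_of_nonneg hl.le, Real.norm_of_nonneg (by linarith)] at h4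
  rw [mul_div_assoc', le_div_iff₀ hl]
  have h6 : (|c| + 1) * Real.log N ≤ (|c| + 1) * (ε / (|c| + 1) * N) := by gcongr
  have h7 : (|c| + 1) * (ε / (|c| + 1) * N) = ε * N := by field_simp
  have h8 : c * Real.log N ≤ (|c| + 1) * Real.log N := by
    gcongr
    linarith [le_abs_self c]
  linarith

theorem inter_small {m m' : ℕ} (hm : m < m') {ε : ℝ} (hε : 0 < ε) :
    ∀ᶠ N : ℕ in atTop, ((A m N ∩ A m' N).card : ℝ) ≤ ε * (N / Real.log N) := by
  by_cases ho : Even (m' - m)
  · obtain ⟨C, hC, hb⟩ := Pool.Agent.HL26.exists_sieve_bound 2 (by norm_num)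
    set d := m' - m with hd
    have hd0 : 0 ≠ d := by omega
    set S := Pool.Agent.HL26.singularSeries {0, d} with hS
    have hNt : Tendsto (fun N : ℕ => (N : ℝ)) atTop atTop := tendsto_natCast_atTop_atTop
    have hlog : ∀ᶠ N : ℕ in atTop, C * |S| / ε ≤ Real.log N :=
      (Real.tendsto_log_atTop.comp hNt).eventually_ge_atTop _
    filter_upwards [hNt.eventually hb, hlog, eventually_ge_atTop 3] with N h1 h2 h3
    have h4 := h1 {0, d} (Finset.card_pair hd0) (admissible d ho)
    have h5 : ((A m N ∩ A m' N).card : ℝ) ≤ Pool.Agent.HL26.tupleCount (N : ℝ) {0, d} := by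
      exact_mod_cast card_inter_even (N := N) hm
    have hN : (3 : ℝ) ≤ N := by exact_mod_cast h3
    have hl1 : 0 < Real.log N := Real.log_pos (by linarith)
    refine h5.trans (h4.trans ?_)
    rw [← hS]
    have h6 : C * |S| ≤ ε * Real.log N := by
      rw [div_le_iff₀ hε] at h2
      linarith
    calc C * (S * (N / Real.log N ^ 2)) ≤ C * (|S| * (N / Real.log N ^ 2)) := by
          gcongr
          exact le_abs_self S
      _ = (C * |S|) * (N / Real.log N ^ 2) := by ring
      _ ≤ (ε * Real.log N) * (N / Real.log N ^ 2) := by gcongr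
      _ = ε * (N / Real.log N) := by
          field_simp
  · filter_upwards [small_const 1 hε] with N hN
    refine le_trans ?_ hN
    exact_mod_cast card_inter_odd hm ho

theorem theta_close : ∃ C : ℝ, 0 < C ∧ ∀ x : ℝ, 3 ≤ x →
    |Chebyshev.theta x - x| ≤ C * x / Real.log x := by
  obtain ⟨C, hC, h⟩ := Pool.Agent.ANT.theta_ap 1 (ε := 1) one_pos
  refine ⟨C, hC, fun x hx => ?_⟩
  have h1 := h 1 1 isUnit_one x hx
  have e1 : (Finset.Icc 1 ⌊x⌋₊).filter (fun p : ℕ => p.Prime ∧ (p : ZMod 1) = 1) =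
      (Finset.Icc 1 ⌊x⌋₊).filter Nat.Prime := by
    refine Finset.filter_congr fun p _ => ?_
    exact ⟨fun h => h.1, fun h => ⟨h, Subsingleton.elim _ _⟩⟩
  rw [e1] at h1
  have e2 : Chebyshev.theta x = ∑ p ∈ (Finset.Icc 1 ⌊x⌋₊).filter Nat.Prime, Real.log p := by
    rw [Chebyshev.theta]
    refine Finset.sum_congr ?_ fun _ _ => rfl
    ext p
    simp only [Finset.mem_filter, Finset.mem_Icc, Finset.mem_Ioc]
    constructor
    · rintro ⟨⟨h1, h2⟩, h3⟩
      exact ⟨⟨by omega, h2⟩, h3⟩
    · rintro ⟨⟨h1, h2⟩, h3⟩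
      exact ⟨⟨by omega, h2⟩, h3⟩
  rw [e2]
  simpa using h1

/-- the prime number theorem -/
theorem pnt {ε : ℝ} (hε : 0 < ε) : ∀ᶠ N : ℕ in atTop,
    |(N.primeCounting : ℝ) - N / Real.log N| ≤ ε * (N / Real.log N) := by
  obtain ⟨C, hC, h1⟩ := theta_close
  obtain ⟨D, hD, h2⟩ := Chebyshev.primeCounting_sub_theta_div_log_isBigO.exists_pos
  rw [Asymptotics.IsBigOWith] at h2
  have hl : ∀ᶠ N : ℕ in atTop, (C + D) / ε + 1 ≤ Real.log N :=
    (Real.tendsto_log_atTop.comp tendsto_natCast_atTop_atTop).eventually_ge_atTop _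
  filter_upwards [tendsto_natCast_atTop_atTop.eventually h2, hl, eventually_ge_atTop 3]
    with N h3 h4 h5
  have hN : (3 : ℝ) ≤ N := by exact_mod_cast h5
  have hl0 : 0 < Real.log N := Real.log_pos (by linarith)
  rw [Nat.floor_natCast, Real.norm_eq_abs, Real.norm_eq_abs,
    abs_of_nonneg (by positivity : (0 : ℝ) ≤ N / Real.log N ^ 2)] at h3
  have h6 := h1 N hN
  have h7 : |Chebyshev.theta (N : ℝ) / Real.log N - N / Real.log N| ≤
      C * (N / Real.log N ^ 2) := by
    rw [← sub_div, abs_div, abs_of_pos hl0, div_le_iff₀ hl0]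
    refine h6.trans (le_of_eq ?_)
    field_simp
  have h8 : |(N.primeCounting : ℝ) - N / Real.log N| ≤ (C + D) * (N / Real.log N ^ 2) := by
    calc |(N.primeCounting : ℝ) - N / Real.log N| =
          |((N.primeCounting : ℝ) - Chebyshev.theta (N : ℝ) / Real.log N) +
            (Chebyshev.theta (N : ℝ) / Real.log N - N / Real.log N)| := by ring_nf
      _ ≤ _ := abs_add_le _ _
      _ ≤ D * (N / Real.log N ^ 2) + C * (N / Real.log N ^ 2) := add_le_add h3 h7
      _ = _ := by ring
  refine h8.trans ?_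
  have h9 : C + D ≤ ε * Real.log N := by
    have : (C + D) / ε ≤ Real.log N := by linarith
    rw [div_le_iff₀ hε] at this
    linarith
  calc (C + D) * (N / Real.log N ^ 2) ≤ ε * Real.log N * (N / Real.log N ^ 2) := by gcongr
    _ = ε * (N / Real.log N) := by field_simp

theorem pi_sub (N m : ℕ) : N.primeCounting ≤ (N - m).primeCounting + m := by
  induction m with
  | zero => simp
  | succ m ih =>
    refine ih.trans ?_
    rcases Nat.lt_or_ge m N with h | h
    · have h1 := Pool.Agent.E139P.pi_succ_le (N - (m + 1))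
      have h2 : N - (m + 1) + 1 = N - m := by omega
      rw [h2] at h1
      omega
    · rw [Nat.sub_eq_zero_of_le h, Nat.sub_eq_zero_of_le (by omega)]
      omega

theorem prime_many (m : ℕ) {ε : ℝ} (hε : 0 < ε) :
    ∀ᶠ N : ℕ in atTop, (1 - ε) * (N / Real.log N) ≤ ((N - m).primeCounting : ℝ) := by
  filter_upwards [pnt (half_pos hε), small_const m (half_pos hε)] with N h1 h2
  have h3 : (N.primeCounting : ℝ) ≤ (N - m).primeCounting + m := by exact_mod_cast pi_sub N m
  have h4 := (abs_le.1 h1).1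
  linarith

theorem prime_few {ε : ℝ} (hε : 0 < ε) :
    ∀ᶠ N : ℕ in atTop, (N.primeCounting : ℝ) ≤ (1 + ε) * (N / Real.log N) := by
  filter_upwards [pnt hε] with N h1
  have h4 := (abs_le.1 h1).2
  linarith

theorem A_rep {W : ℕ → Prop} {m N n : ℕ} (h1 : 1 ≤ m) (hW : W m) (hn : n ∈ A m N) :
    n ≤ N ∧ Rep W N n := by
  rw [A, Finset.mem_filter, Finset.mem_Icc] at hn
  have h2 := hn.2.two_le
  have h3 : n - (n - m) = m := by omega
  refine ⟨hn.1.2, n - m, hn.2, by omega, by omega, ?_⟩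
  rw [h3]
  exact hW

theorem lower (W : ℕ → Prop) (F : Finset ℕ) (hF : ∀ m ∈ F, 1 ≤ m ∧ W m) {ε : ℝ} (hε0 : 0 < ε) :
    ∀ᶠ N : ℕ in atTop, ((F.card : ℝ) - ε) * (N / Real.log N) ≤ (H W N N : ℝ) := by
  classical
  rcases F.eq_empty_or_nonempty with rfl | hne
  · filter_upwards [eventually_ge_atTop 3] with N h4
    have hN : (3 : ℝ) ≤ N := by exact_mod_cast h4
    have hl : 0 < Real.log N := Real.log_pos (by linarith)
    have h1 : (0 : ℝ) ≤ N / Real.log N := by positivity
    have h2 : (0 : ℝ) ≤ (H W N N : ℝ) := Nat.cast_nonneg _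
    rw [Finset.card_empty, Nat.cast_zero, zero_sub]
    nlinarith
  have hk : (0 : ℝ) < F.card := by exact_mod_cast hne.card_pos
  obtain ⟨η, hη⟩ : ∃ η : ℝ, η = ε / (2 * F.card) := ⟨_, rfl⟩
  have hη0 : 0 < η := by rw [hη]; positivity
  have hηk : 2 * F.card * η = ε := by rw [hη]; field_simp
  have hε : (0 : ℝ) < η / F.card := by positivity
  have h1 : ∀ᶠ N : ℕ in atTop, ∀ m ∈ F,
      (1 - η) * (N / Real.log N) ≤ ((N - m).primeCounting : ℝ) :=
    (eventually_all_finset F).2 fun m _ => prime_many _ hη0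
  have h2 : ∀ᶠ N : ℕ in atTop, ∀ m ∈ F, ∀ m' ∈ F, m ≠ m' →
      ((A m N ∩ A m' N).card : ℝ) ≤ η / F.card * (N / Real.log N) := by
    refine (eventually_all_finset F).2 fun m hm => (eventually_all_finset F).2 fun m' hm' => ?_
    rcases lt_trichotomy m m' with h | h | h
    · filter_upwards [inter_small h hε] with N hN _
      exact hN
    · exact Eventually.of_forall fun N h' => absurd h h'
    · filter_upwards [inter_small h hε] with N hN _
      rwa [Finset.inter_comm]
  filter_upwards [h1, h2, eventually_ge_atTop 3] with N h1 h2 h4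
  have hN : (3 : ℝ) ≤ N := by exact_mod_cast h4
  have hl : 0 < Real.log N := Real.log_pos (by linarith)
  set L : ℝ := N / Real.log N with hL
  have hL0 : 0 < L := by positivity
  set B : ℕ → Finset ℕ := fun m => A m N \ (F.erase m).biUnion fun m' => A m N ∩ A m' N with hB
  have hBc : ∀ m ∈ F, (1 - 2 * η) * L ≤ ((B m).card : ℝ) := by
    intro m hm
    have h5 : (A m N).card ≤ (B m).card + ((F.erase m).biUnion fun m' => A m N ∩ A m' N).card :=
      Finset.card_le_card_sdiff_add_card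
    have h6 : (((F.erase m).biUnion fun m' => A m N ∩ A m' N).card : ℝ) ≤ η * L := by
      have h7 : (((F.erase m).biUnion fun m' => A m N ∩ A m' N).card : ℝ) ≤
          ∑ m' ∈ F.erase m, ((A m N ∩ A m' N).card : ℝ) := by
        exact_mod_cast Finset.card_biUnion_le
      refine h7.trans ?_
      calc ∑ m' ∈ F.erase m, ((A m N ∩ A m' N).card : ℝ) ≤
            ∑ _m' ∈ F.erase m, η / F.card * L := by
              refine Finset.sum_le_sum fun m' hm' => h2 m hm m' (Finset.mem_of_mem_erase hm') ?_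
              exact (Finset.ne_of_mem_erase hm').symm
        _ ≤ F.card * (η / F.card * L) := by
              rw [Finset.sum_const, nsmul_eq_mul]
              gcongr
              exact Finset.erase_subset _ _
        _ = η * L := by field_simp
    have h8 : ((N - m).primeCounting : ℝ) ≤ (A m N).card := by
      exact_mod_cast card_A_ge m N
    have h9 : ((A m N).card : ℝ) ≤ (B m).card +
        ((F.erase m).biUnion fun m' => A m N ∩ A m' N).card := by exact_mod_cast h5
    have h10 := h1 m hm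
    linarith
  have hdis : ((F : Set ℕ)).PairwiseDisjoint B := by
    intro m hm m' hm' hmm
    rw [Function.onFun, Finset.disjoint_left]
    intro n hn hn'
    rw [hB] at hn hn'
    dsimp only at hn hn'
    rw [Finset.mem_sdiff] at hn hn'
    refine hn.2 (Finset.mem_biUnion.2 ⟨m', Finset.mem_erase.2 ⟨hmm.symm, hm'⟩, ?_⟩)
    exact Finset.mem_inter.2 ⟨hn.1, hn'.1⟩
  have hfin : {n : ℕ | n ≤ N ∧ Rep W N n}.Finite := (Set.finite_Iic N).subset fun n hn => hn.1
  have h12 : (F.biUnion B).card ≤ H W N N := by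
    rw [H, ← Set.ncard_coe_finset]
    refine Set.ncard_le_ncard ?_ hfin
    intro n hn
    rw [Finset.mem_coe, Finset.mem_biUnion] at hn
    obtain ⟨m, hm, hn⟩ := hn
    exact A_rep (hF m hm).1 (hF m hm).2 (Finset.mem_sdiff.1 hn).1
  have h13 : (F.biUnion B).card = ∑ m ∈ F, (B m).card := Finset.card_biUnion hdis
  have h14 : ((F.card : ℝ) - ε) * L ≤ ((F.biUnion B).card : ℝ) := by
    rw [h13]
    push_cast
    have h15 : ((F.card : ℝ) - ε) * L = ∑ _m ∈ F, (1 - 2 * η) * L := by
      rw [Finset.sum_const, nsmul_eq_mul, ← hηk]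
      ring
    rw [h15]
    exact Finset.sum_le_sum fun m hm => hBc m hm
  exact h14.trans (by exact_mod_cast h12)

theorem upper_exact (W : ℕ → Prop) (B N : ℕ) : H W B N ≤ M W B * N.primeCounting := by
  classical
  have hfin : {m : ℕ | 1 ≤ m ∧ m ≤ B ∧ W m}.Finite := (Set.finite_Iic B).subset fun m hm => hm.2.1
  set S := hfin.toFinset with hS
  have h1 : {n : ℕ | n ≤ N ∧ Rep W B n} ⊆ ((S.biUnion fun m => A m N : Finset ℕ) : Set ℕ) := by
    rintro n ⟨hn, p, hp, hpn, hB, hW⟩
    rw [Finset.mem_coe, Finset.mem_biUnion]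
    refine ⟨n - p, ?_, ?_⟩
    · rw [hS, Set.Finite.mem_toFinset]
      exact ⟨by omega, hB, hW⟩
    · rw [A, Finset.mem_filter, Finset.mem_Icc]
      have h2 : n - (n - p) = p := by omega
      rw [h2]
      exact ⟨⟨by omega, hn⟩, hp⟩
  have h2 : H W B N ≤ (S.biUnion fun m => A m N).card := by
    rw [H, ← Set.ncard_coe_finset]
    exact Set.ncard_le_ncard h1 (Finset.finite_toSet _)
  refine h2.trans (Finset.card_biUnion_le.trans ?_)
  have h3 : ∑ m ∈ S, (A m N).card ≤ ∑ _m ∈ S, N.primeCounting :=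
    Finset.sum_le_sum fun m _ => card_A_le m N
  refine h3.trans (le_of_eq ?_)
  rw [Finset.sum_const, smul_eq_mul, M, Set.ncard_eq_toFinset_card _ hfin]

theorem upper {ε : ℝ} (hε : 0 < ε) : ∀ᶠ N : ℕ in atTop, ∀ (W : ℕ → Prop) (B : ℕ),
    (H W B N : ℝ) ≤ (1 + ε) * M W B * (N / Real.log N) := by
  filter_upwards [prime_few hε] with N hN W B
  have h1 : (H W B N : ℝ) ≤ M W B * N.primeCounting := by exact_mod_cast upper_exact W B N
  refine h1.trans ?_
  have h2 : (0 : ℝ) ≤ M W B := Nat.cast_nonneg _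
  calc (M W B : ℝ) * N.primeCounting ≤ M W B * ((1 + ε) * (N / Real.log N)) := by gcongr
    _ = _ := by ring

/-! ### the rows of the table of strict partitions with bounded parts -/

/-- the number of sets of positive integers `≤ k` with sum `m` -/
def c (k m : ℕ) : ℕ := ((Finset.Icc 1 k).powerset.filter fun s => ∑ i ∈ s, i = m).card

theorem c_zero (m : ℕ) : c 0 m = if m = 0 then 1 else 0 := by
  unfold c
  rw [show Finset.Icc 1 0 = ∅ by decide, Finset.powerset_empty, Finset.filter_singleton]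
  rw [Finset.sum_empty]
  by_cases h : m = 0
  · rw [if_pos h.symm, if_pos h, Finset.card_singleton]
  · rw [if_neg (fun h' => h h'.symm), if_neg h, Finset.card_empty]

theorem c_succ (k m : ℕ) :
    c (k + 1) m = c k m + if k + 1 ≤ m then c k (m - (k + 1)) else 0 := by
  unfold c
  have h1 : Finset.Icc 1 (k + 1) = insert (k + 1) (Finset.Icc 1 k) := by
    ext x
    rw [Finset.mem_insert, Finset.mem_Icc, Finset.mem_Icc]
    omega
  have h2 : k + 1 ∉ Finset.Icc 1 k := by
    rw [Finset.mem_Icc]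
    omega
  rw [h1, Finset.powerset_insert, Finset.filter_union, Finset.card_union_of_disjoint]
  · congr 1
    rw [Finset.filter_image]
    have h3 : ∀ s ∈ (Finset.Icc 1 k).powerset, ∑ i ∈ insert (k + 1) s, i = (k + 1) + ∑ i ∈ s, i := by
      intro s hs
      rw [Finset.mem_powerset] at hs
      exact Finset.sum_insert fun h => h2 (hs h)
    by_cases h : k + 1 ≤ m
    · rw [if_pos h, Finset.card_image_of_injOn]
      · congr 1
        refine Finset.filter_congr fun s hs => ?_
        rw [h3 s hs]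
        omega
      · intro s hs t ht hst
        rw [Finset.mem_coe, Finset.mem_filter, Finset.mem_powerset] at hs ht
        have hs2 : k + 1 ∉ s := fun h => h2 (hs.1 h)
        have ht2 : k + 1 ∉ t := fun h => h2 (ht.1 h)
        rw [← Finset.erase_insert hs2, hst, Finset.erase_insert ht2]
    · rw [if_neg h, Finset.card_eq_zero, Finset.image_eq_empty, Finset.filter_eq_empty_iff]
      intro s hs
      rw [h3 s hs]
      omega
  · rw [Finset.disjoint_left]
    intro s hs hs'
    rw [Finset.mem_filter, Finset.mem_powerset] at hs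
    rw [Finset.mem_filter, Finset.mem_image] at hs'
    obtain ⟨⟨t, _, rfl⟩, _⟩ := hs'
    exact h2 (hs.1 (Finset.mem_insert_self _ _))

theorem c_stable {k m : ℕ} (h : m ≤ k) : c k m = q m := by
  induction k, h using Nat.le_induction with
  | base => rfl
  | succ k hk ih => rw [c_succ, if_neg (by omega), add_zero, ih]

/-- the next row of the table -/
def step (k : ℕ) (r : List ℕ) : List ℕ :=
  List.zipWith (fun a b => a + b) r (List.replicate (k + 1) 0 ++ r)

/-- the `k`-th row of the table, columns `0, .., L` -/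
def rows (L : ℕ) : ℕ → List ℕ
  | 0 => 1 :: List.replicate L 0
  | k + 1 => step k (rows L k)

theorem rows_spec (L k : ℕ) : (rows L k).length = L + 1 ∧
    ∀ j, j ≤ L → (rows L k)[j]? = some (c k j) := by
  induction k with
  | zero =>
    refine ⟨by simp [rows], fun j hj => ?_⟩
    rw [c_zero, rows]
    rcases j with _ | j
    · simp
    · rw [List.getElem?_cons_succ, List.getElem?_replicate, if_pos (by omega), if_neg (by omega)]
  | succ k ih =>
    have hlen : (rows L (k + 1)).length = L + 1 := by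
      rw [rows, step, List.length_zipWith, List.length_append, List.length_replicate, ih.1]
      omega
    refine ⟨hlen, fun j hj => ?_⟩
    rw [rows, step, List.getElem?_zipWith, ih.2 j hj, c_succ]
    by_cases h : k + 1 ≤ j
    · rw [if_pos h, List.getElem?_append_right (by rw [List.length_replicate]; exact h),
        List.length_replicate, ih.2 (j - (k + 1)) (by omega)]
    · rw [if_neg h, List.getElem?_append_left (by rw [List.length_replicate]; omega),
        List.getElem?_replicate, if_pos (by omega)]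

theorem q_eq (L m : ℕ) (hm : m ≤ L) : q m = (rows L L).getD m 0 := by
  rw [List.getD_eq_getElem?_getD, (rows_spec L L).2 m hm, Option.getD_some, c_stable hm]

/-! ### explicit values -/

/-- the values `q 0, .., q 179` -/
def vals : List ℕ :=
   [1, 1, 1, 2, 2, 3, 4, 5, 6, 8, 10, 12, 15, 18, 22, 27, 32, 38, 46, 54, 64, 76, 89, 104, 122,
    142, 165, 192, 222, 256, 296, 340, 390, 448, 512, 585, 668, 760, 864, 982, 1113, 1260,
    1426, 1610, 1816, 2048, 2304, 2590, 2910, 3264, 3658, 4097, 4582, 5120, 5718, 6378, 7108,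
    7917, 8808, 9792, 10880, 12076, 13394, 14848, 16444, 18200, 20132, 22250, 24576, 27130,
    29927, 32992, 36352, 40026, 44046, 48446, 53250, 58499, 64234, 70488, 77312, 84756, 92864,
    101698, 111322, 121792, 133184, 145578, 159046, 173682, 189586, 206848, 225585, 245920,
    267968, 291874, 317788, 345856, 376256, 409174, 444793, 483330, 525016, 570078, 618784,
    671418, 728260, 789640, 855906, 927406, 1004544, 1087744, 1177438, 1274118, 1378304,
    1490528, 1611388, 1741521, 1881578, 2032290, 2194432, 2368800, 2556284, 2757826, 2974400,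
    3207086, 3457027, 3725410, 4013544, 4322816, 4654670, 5010688, 5392550, 5802008, 6240974,
    6711480, 7215644, 7755776, 8334326, 8953856, 9617150, 10327156, 11086968, 11899934,
    12769602, 13699699, 14694244, 15757502, 16893952, 18108418, 19406016, 20792120, 22272512,
    23853318, 25540982, 27342421, 29264960, 31316314, 33504746, 35839008, 38328320, 40982540,
    43812110, 46828032, 50042056, 53466624, 57114844, 61000704, 65139008, 69545358, 74236384,
    79229676, 84543782, 90198446, 96214550, 102614114, 109420549, 116658616, 124354422,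
    132535702]

theorem rows_eq : rows 179 179 = vals := by decide +kernel

theorem q_val (m v : ℕ) (hm : m ≤ 179) (h : vals.getD m 0 = v) : q m = v := by
  rw [q_eq 179 m hm, rows_eq, h]

set_option maxRecDepth 100000 in
theorem many1 : ∃ F : Finset ℕ, F.card = 38 ∧ ∀ m ∈ F, 1 ≤ m ∧ P1 m := by
  refine ⟨({1, 2, 3, 4, 6, 8, 10, 11, 13, 14, 18, 27, 28, 29, 33, 37, 39, 42, 47, 50, 52, 55, 56, 71,
    72, 79, 84, 89, 96, 102, 103, 106, 121, 127, 131, 141, 142, 179} : Finset ℕ), by decide, ?_⟩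
  intro m hm
  simp only [Finset.mem_insert, Finset.mem_singleton] at hm
  unfold P1
  rcases hm with rfl | rfl | rfl | rfl | rfl | rfl | rfl | rfl | rfl | rfl | rfl | rfl | rfl | rfl | rfl | rfl | rfl | rfl | rfl | rfl | rfl | rfl | rfl | rfl | rfl | rfl | rfl | rfl | rfl | rfl | rfl | rfl | rfl | rfl | rfl | rfl | rfl | rfl
  · exact ⟨by norm_num, by rw [q_val 1 1 (by norm_num) rfl]; norm_num⟩
  · exact ⟨by norm_num, by rw [q_val 2 1 (by norm_num) rfl]; norm_num⟩
  · exact ⟨by norm_num, by rw [q_val 3 2 (by norm_num) rfl]; norm_num⟩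
  · exact ⟨by norm_num, by rw [q_val 4 2 (by norm_num) rfl]; norm_num⟩
  · exact ⟨by norm_num, by rw [q_val 6 4 (by norm_num) rfl]; norm_num⟩
  · exact ⟨by norm_num, by rw [q_val 8 6 (by norm_num) rfl]; norm_num⟩
  · exact ⟨by norm_num, by rw [q_val 10 10 (by norm_num) rfl]; norm_num⟩
  · exact ⟨by norm_num, by rw [q_val 11 12 (by norm_num) rfl]; norm_num⟩
  · exact ⟨by norm_num, by rw [q_val 13 18 (by norm_num) rfl]; norm_num⟩
  · exact ⟨by norm_num, by rw [q_val 14 22 (by norm_num) rfl]; norm_num⟩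
  · exact ⟨by norm_num, by rw [q_val 18 46 (by norm_num) rfl]; norm_num⟩
  · exact ⟨by norm_num, by rw [q_val 27 192 (by norm_num) rfl]; norm_num⟩
  · exact ⟨by norm_num, by rw [q_val 28 222 (by norm_num) rfl]; norm_num⟩
  · exact ⟨by norm_num, by rw [q_val 29 256 (by norm_num) rfl]; norm_num⟩
  · exact ⟨by norm_num, by rw [q_val 33 448 (by norm_num) rfl]; norm_num⟩
  · exact ⟨by norm_num, by rw [q_val 37 760 (by norm_num) rfl]; norm_num⟩
  · exact ⟨by norm_num, by rw [q_val 39 982 (by norm_num) rfl]; norm_num⟩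
  · exact ⟨by norm_num, by rw [q_val 42 1426 (by norm_num) rfl]; norm_num⟩
  · exact ⟨by norm_num, by rw [q_val 47 2590 (by norm_num) rfl]; norm_num⟩
  · exact ⟨by norm_num, by rw [q_val 50 3658 (by norm_num) rfl]; norm_num⟩
  · exact ⟨by norm_num, by rw [q_val 52 4582 (by norm_num) rfl]; norm_num⟩
  · exact ⟨by norm_num, by rw [q_val 55 6378 (by norm_num) rfl]; norm_num⟩
  · exact ⟨by norm_num, by rw [q_val 56 7108 (by norm_num) rfl]; norm_num⟩
  · exact ⟨by norm_num, by rw [q_val 71 32992 (by norm_num) rfl]; norm_num⟩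
  · exact ⟨by norm_num, by rw [q_val 72 36352 (by norm_num) rfl]; norm_num⟩
  · exact ⟨by norm_num, by rw [q_val 79 70488 (by norm_num) rfl]; norm_num⟩
  · exact ⟨by norm_num, by rw [q_val 84 111322 (by norm_num) rfl]; norm_num⟩
  · exact ⟨by norm_num, by rw [q_val 89 173682 (by norm_num) rfl]; norm_num⟩
  · exact ⟨by norm_num, by rw [q_val 96 317788 (by norm_num) rfl]; norm_num⟩
  · exact ⟨by norm_num, by rw [q_val 102 525016 (by norm_num) rfl]; norm_num⟩
  · exact ⟨by norm_num, by rw [q_val 103 570078 (by norm_num) rfl]; norm_num⟩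
  · exact ⟨by norm_num, by rw [q_val 106 728260 (by norm_num) rfl]; norm_num⟩
  · exact ⟨by norm_num, by rw [q_val 121 2368800 (by norm_num) rfl]; norm_num⟩
  · exact ⟨by norm_num, by rw [q_val 127 3725410 (by norm_num) rfl]; norm_num⟩
  · exact ⟨by norm_num, by rw [q_val 131 5010688 (by norm_num) rfl]; norm_num⟩
  · exact ⟨by norm_num, by rw [q_val 141 10327156 (by norm_num) rfl]; norm_num⟩
  · exact ⟨by norm_num, by rw [q_val 142 11086968 (by norm_num) rfl]; norm_num⟩
  · exact ⟨by norm_num, by rw [q_val 179 132535702 (by norm_num) rfl]; norm_num⟩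

set_option maxRecDepth 100000 in
theorem many2 : ∃ F : Finset ℕ, F.card = 38 ∧ ∀ m ∈ F, 1 ≤ m ∧ P2 m := by
  refine ⟨({5, 6, 8, 9, 11, 13, 16, 17, 19, 23, 27, 32, 38, 41, 43, 48, 53, 54, 58, 59, 65, 79, 82, 86,
    87, 103, 105, 115, 121, 128, 130, 132, 134, 136, 142, 143, 147, 151} : Finset ℕ), by decide, ?_⟩
  intro m hm
  simp only [Finset.mem_insert, Finset.mem_singleton] at hm
  unfold P2
  rcases hm with rfl | rfl | rfl | rfl | rfl | rfl | rfl | rfl | rfl | rfl | rfl | rfl | rfl | rfl | rfl | rfl | rfl | rfl | rfl | rfl | rfl | rfl | rfl | rfl | rfl | rfl | rfl | rfl | rfl | rfl | rfl | rfl | rfl | rfl | rfl | rfl | rfl | rfl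
  · exact ⟨by norm_num, by rw [q_val 5 3 (by norm_num) rfl]; norm_num⟩
  · exact ⟨by norm_num, by rw [q_val 6 4 (by norm_num) rfl]; norm_num⟩
  · exact ⟨by norm_num, by rw [q_val 8 6 (by norm_num) rfl]; norm_num⟩
  · exact ⟨by norm_num, by rw [q_val 9 8 (by norm_num) rfl]; norm_num⟩
  · exact ⟨by norm_num, by rw [q_val 11 12 (by norm_num) rfl]; norm_num⟩
  · exact ⟨by norm_num, by rw [q_val 13 18 (by norm_num) rfl]; norm_num⟩
  · exact ⟨by norm_num, by rw [q_val 16 32 (by norm_num) rfl]; norm_num⟩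
  · exact ⟨by norm_num, by rw [q_val 17 38 (by norm_num) rfl]; norm_num⟩
  · exact ⟨by norm_num, by rw [q_val 19 54 (by norm_num) rfl]; norm_num⟩
  · exact ⟨by norm_num, by rw [q_val 23 104 (by norm_num) rfl]; norm_num⟩
  · exact ⟨by norm_num, by rw [q_val 27 192 (by norm_num) rfl]; norm_num⟩
  · exact ⟨by norm_num, by rw [q_val 32 390 (by norm_num) rfl]; norm_num⟩
  · exact ⟨by norm_num, by rw [q_val 38 864 (by norm_num) rfl]; norm_num⟩
  · exact ⟨by norm_num, by rw [q_val 41 1260 (by norm_num) rfl]; norm_num⟩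
  · exact ⟨by norm_num, by rw [q_val 43 1610 (by norm_num) rfl]; norm_num⟩
  · exact ⟨by norm_num, by rw [q_val 48 2910 (by norm_num) rfl]; norm_num⟩
  · exact ⟨by norm_num, by rw [q_val 53 5120 (by norm_num) rfl]; norm_num⟩
  · exact ⟨by norm_num, by rw [q_val 54 5718 (by norm_num) rfl]; norm_num⟩
  · exact ⟨by norm_num, by rw [q_val 58 8808 (by norm_num) rfl]; norm_num⟩
  · exact ⟨by norm_num, by rw [q_val 59 9792 (by norm_num) rfl]; norm_num⟩
  · exact ⟨by norm_num, by rw [q_val 65 18200 (by norm_num) rfl]; norm_num⟩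
  · exact ⟨by norm_num, by rw [q_val 79 70488 (by norm_num) rfl]; norm_num⟩
  · exact ⟨by norm_num, by rw [q_val 82 92864 (by norm_num) rfl]; norm_num⟩
  · exact ⟨by norm_num, by rw [q_val 86 133184 (by norm_num) rfl]; norm_num⟩
  · exact ⟨by norm_num, by rw [q_val 87 145578 (by norm_num) rfl]; norm_num⟩
  · exact ⟨by norm_num, by rw [q_val 103 570078 (by norm_num) rfl]; norm_num⟩
  · exact ⟨by norm_num, by rw [q_val 105 671418 (by norm_num) rfl]; norm_num⟩
  · exact ⟨by norm_num, by rw [q_val 115 1490528 (by norm_num) rfl]; norm_num⟩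
  · exact ⟨by norm_num, by rw [q_val 121 2368800 (by norm_num) rfl]; norm_num⟩
  · exact ⟨by norm_num, by rw [q_val 128 4013544 (by norm_num) rfl]; norm_num⟩
  · exact ⟨by norm_num, by rw [q_val 130 4654670 (by norm_num) rfl]; norm_num⟩
  · exact ⟨by norm_num, by rw [q_val 132 5392550 (by norm_num) rfl]; norm_num⟩
  · exact ⟨by norm_num, by rw [q_val 134 6240974 (by norm_num) rfl]; norm_num⟩
  · exact ⟨by norm_num, by rw [q_val 136 7215644 (by norm_num) rfl]; norm_num⟩
  · exact ⟨by norm_num, by rw [q_val 142 11086968 (by norm_num) rfl]; norm_num⟩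
  · exact ⟨by norm_num, by rw [q_val 143 11899934 (by norm_num) rfl]; norm_num⟩
  · exact ⟨by norm_num, by rw [q_val 147 15757502 (by norm_num) rfl]; norm_num⟩
  · exact ⟨by norm_num, by rw [q_val 151 20792120 (by norm_num) rfl]; norm_num⟩

/-! ### consequences -/

theorem tends_finite (W : ℕ → Prop) (hfin : {m : ℕ | 1 ≤ m ∧ W m}.Finite) :
    Tendsto (fun N : ℕ => (H W N N : ℝ) * Real.log N / N) atTop
      (nhds ({m : ℕ | 1 ≤ m ∧ W m}.ncard : ℝ)) := by
  classical
  set k : ℝ := ({m : ℕ | 1 ≤ m ∧ W m}.ncard : ℝ) with hk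
  have hk0 : 0 ≤ k := Nat.cast_nonneg _
  rw [Metric.tendsto_atTop]
  intro ε hε
  have h1 := lower W hfin.toFinset (fun m hm => by
    rw [Set.Finite.mem_toFinset] at hm
    exact hm) (half_pos hε)
  have hε2 : 0 < ε / (2 * (k + 1)) := by positivity
  obtain ⟨N₀, hN₀⟩ := eventually_atTop.1 (h1.and ((upper hε2).and (eventually_ge_atTop 3)))
  refine ⟨N₀, fun N hN => ?_⟩
  obtain ⟨h2, h3, h4⟩ := hN₀ N hN
  have hN3 : (3 : ℝ) ≤ N := by exact_mod_cast h4
  have hl : 0 < Real.log N := Real.log_pos (by linarith)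
  have hL : 0 < (N : ℝ) / Real.log N := by positivity
  have h5 : (H W N N : ℝ) * Real.log N / N = H W N N / (N / Real.log N) := by
    field_simp
  have h6 : (hfin.toFinset.card : ℝ) = k := by
    rw [hk, Set.ncard_eq_toFinset_card _ hfin]
  rw [h6] at h2
  have h7 : (M W N : ℝ) ≤ k := by
    have h1 : M W N ≤ {m : ℕ | 1 ≤ m ∧ W m}.ncard :=
      Set.ncard_le_ncard (fun m hm => ⟨hm.1, hm.2.2⟩) hfin
    rw [hk]
    exact_mod_cast h1
  have h8 : (H W N N : ℝ) ≤ (k + ε / 2) * (N / Real.log N) := by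
    refine (h3 W N).trans ?_
    have h9 : (1 + ε / (2 * (k + 1))) * (M W N : ℝ) ≤ k + ε / 2 := by
      have h10 : (1 + ε / (2 * (k + 1))) * (M W N : ℝ) ≤ (1 + ε / (2 * (k + 1))) * k := by gcongr
      have h11 : ε / (2 * (k + 1)) * k ≤ ε / 2 := by
        rw [div_mul_eq_mul_div, div_le_div_iff₀ (by positivity) (by norm_num)]
        nlinarith
      linarith
    gcongr
  rw [h5, Real.dist_eq, abs_sub_lt_iff]
  constructor
  · have h9 : (H W N N : ℝ) / (N / Real.log N) ≤ k + ε / 2 := by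
      rw [div_le_iff₀ hL]
      exact h8
    linarith
  · have h9 : k - ε / 2 ≤ (H W N N : ℝ) / (N / Real.log N) := by
      rw [le_div_iff₀ hL]
      exact h2
    linarith

theorem tends_infinite (W : ℕ → Prop) (hinf : {m : ℕ | 1 ≤ m ∧ W m}.Infinite) :
    Tendsto (fun N : ℕ => (H W N N : ℝ) * Real.log N / N) atTop atTop := by
  rw [tendsto_atTop]
  intro K
  obtain ⟨k, hk⟩ := exists_nat_gt (K + 1)
  obtain ⟨F, hF, hFk⟩ := Set.Infinite.exists_subset_card_eq hinf k
  filter_upwards [lower W F (fun m hm => hF hm) one_pos, eventually_ge_atTop 3] with N h3 h4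
  have hN : (3 : ℝ) ≤ N := by exact_mod_cast h4
  have hl : 0 < Real.log N := Real.log_pos (by linarith)
  have hL : 0 < (N : ℝ) / Real.log N := by positivity
  have h5 : (H W N N : ℝ) * Real.log N / N = H W N N / (N / Real.log N) := by
    field_simp
  rw [h5, le_div_iff₀ hL]
  refine le_trans ?_ h3
  rw [hFk]
  gcongr
  linarith

theorem proportion (W : ℕ → Prop) {ε : ℝ} (hε : 0 < ε) :
    ∀ᶠ N : ℕ in atTop, ∀ δ : ℝ, δ * N ≤ (H W N N : ℝ) →
      δ * Real.log N ≤ (1 + ε) * (M W N : ℝ) := by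
  filter_upwards [upper hε, eventually_ge_atTop 3] with N hN h4 δ hδ
  have hN3 : (3 : ℝ) ≤ N := by exact_mod_cast h4
  have hl : 0 < Real.log N := Real.log_pos (by linarith)
  have hNpos : (0 : ℝ) < N := by linarith
  have h6 : δ * N ≤ (1 + ε) * M W N * (N / Real.log N) := hδ.trans (hN W N)
  rw [mul_div_assoc', le_div_iff₀ hl] at h6
  have h8 : δ * Real.log N * N ≤ (1 + ε) * M W N * N := by linarith
  exact le_of_mul_le_mul_right h8 hNpos

theorem necessary (W : ℕ → Prop) (n₀ : ℕ) (h : ∀ n, n₀ < n → Rep W n n) {ε : ℝ} (hε : 0 < ε) :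
    ∀ᶠ N : ℕ in atTop, (1 - ε) * Real.log N ≤ (M W N : ℝ) := by
  rcases le_or_gt 1 ε with h1 | h1
  · filter_upwards [eventually_ge_atTop 3] with N h4
    have hN : (3 : ℝ) ≤ N := by exact_mod_cast h4
    have hl : 0 < Real.log N := Real.log_pos (by linarith)
    have h2 : (0 : ℝ) ≤ M W N := Nat.cast_nonneg _
    nlinarith
  have hε2 : 0 < ε / 2 := half_pos hε
  have hn : ∀ᶠ N : ℕ in atTop, (n₀ : ℝ) ≤ ε / 2 * N :=
    (Tendsto.const_mul_atTop hε2 tendsto_natCast_atTop_atTop).eventually_ge_atTop _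
  filter_upwards [proportion W hε2, eventually_ge_atTop 3, hn] with N hN h4 hn
  have hN3 : (3 : ℝ) ≤ N := by exact_mod_cast h4
  have hl : 0 < Real.log N := Real.log_pos (by linarith)
  have h2 : N ≤ H W N N + n₀ := by
    have hfin : {n : ℕ | n ≤ N ∧ Rep W N n}.Finite := (Set.finite_Iic N).subset fun n hn => hn.1
    have h2 : (Finset.Ioc n₀ N).card ≤ H W N N := by
      rw [H, ← Set.ncard_coe_finset]
      refine Set.ncard_le_ncard ?_ hfin
      intro n hn
      rw [Finset.mem_coe, Finset.mem_Ioc] at hn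
      obtain ⟨p, hp, hpn, hB, hW⟩ := h n hn.1
      exact ⟨hn.2, p, hp, hpn, by omega, hW⟩
    rw [Nat.card_Ioc] at h2
    omega
  have h3 : (N : ℝ) ≤ H W N N + n₀ := by exact_mod_cast h2
  have h5 := hN (1 - ε / 2) (by linarith)
  have h6 : (0 : ℝ) ≤ M W N := Nat.cast_nonneg _
  have h7 : (1 - ε) * (1 + ε / 2) ≤ 1 - ε / 2 := by nlinarith
  have h8 : (1 - ε) * Real.log N * (1 + ε / 2) ≤ M W N * (1 + ε / 2) := by
    calc (1 - ε) * Real.log N * (1 + ε / 2) = (1 - ε) * (1 + ε / 2) * Real.log N := by ring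
      _ ≤ (1 - ε / 2) * Real.log N := by gcongr
      _ ≤ (1 + ε / 2) * M W N := h5
      _ = _ := by ring
  exact le_of_mul_le_mul_right h8 (by linarith)

theorem lower_uniform : ∃ c : ℝ, 0 < c ∧ ∃ N₀ : ℕ, ∀ N : ℕ, N₀ ≤ N → ∀ W : ℕ → Prop,
    c * min ((M W (N / 2) : ℝ) / Real.log N) (1 / Real.log (Real.log N)) * N ≤ (H W N N : ℝ) := by
  classical
  obtain ⟨c, hc, N₀, h⟩ := Pool.Agent.QNP.low
  refine ⟨c, hc, N₀, fun N hN W => ?_⟩
  have hfin : {m : ℕ | 1 ≤ m ∧ m ≤ N / 2 ∧ W m}.Finite :=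
    (Set.finite_Iic (N / 2)).subset fun m hm => hm.2.1
  have h1 := h N hN hfin.toFinset fun m hm => by
    rw [Set.Finite.mem_toFinset] at hm
    obtain ⟨h1, h2, _⟩ := hm
    omega
  have h2 : M W (N / 2) = hfin.toFinset.card := by
    rw [M, Set.ncard_eq_toFinset_card _ hfin]
  rw [h2]
  refine h1.trans ?_
  have hfin2 : {n : ℕ | n ≤ N ∧ Rep W N n}.Finite := (Set.finite_Iic N).subset fun n hn => hn.1
  have h3 : ((Finset.Icc 1 N).filter fun n => ∃ m ∈ hfin.toFinset, (n - m).Prime).card ≤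
      H W N N := by
    rw [H, ← Set.ncard_coe_finset]
    refine Set.ncard_le_ncard ?_ hfin2
    intro n hn
    rw [Finset.mem_coe, Finset.mem_filter, Finset.mem_Icc] at hn
    obtain ⟨⟨h4, h5⟩, m, hm, hp⟩ := hn
    rw [Set.Finite.mem_toFinset] at hm
    exact A_rep (m := m) hm.1 hm.2.2 (by
      rw [A, Finset.mem_filter, Finset.mem_Icc]
      exact ⟨⟨h4, h5⟩, hp⟩)
  exact_mod_cast h3

/-- **The number of `n` with a witness.** -/
theorem result :
    -- upper and lower bounds for the number of `n ≤ N` with a witness, uniform in the property `W`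
    (∃ c : ℝ, 0 < c ∧ ∃ N₀ : ℕ, ∀ N : ℕ, N₀ ≤ N → ∀ W : ℕ → Prop,
      c * min ((M W (N / 2) : ℝ) / Real.log N) (1 / Real.log (Real.log N)) * N ≤ (H W N N : ℝ)) ∧
    (∀ ε : ℝ, 0 < ε → ∃ N₀ : ℕ, ∀ N : ℕ, N₀ ≤ N → ∀ (W : ℕ → Prop) (B : ℕ),
      (H W B N : ℝ) ≤ (1 + ε) * M W B * (N / Real.log N)) ∧
    -- one property `W`: the limit of `H (N) log N / N` is the number of the `m` with `W`
    (∀ W : ℕ → Prop,
      ({m : ℕ | 1 ≤ m ∧ W m}.Finite →
        Tendsto (fun N : ℕ => (H W N N : ℝ) * Real.log N / N) atTop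
          (nhds ({m : ℕ | 1 ≤ m ∧ W m}.ncard : ℝ))) ∧
      ({m : ℕ | 1 ≤ m ∧ W m}.Infinite →
        Tendsto (fun N : ℕ => (H W N N : ℝ) * Real.log N / N) atTop atTop)) ∧
    -- explicit lower bounds
    (∀ᶠ N : ℕ in atTop, 37 * (N / Real.log N) ≤ (H P1 N N : ℝ)) ∧
    (∀ᶠ N : ℕ in atTop, 37 * (N / Real.log N) ≤ (H P2 N N : ℝ)) ∧
    -- what the two questions imply
    ((∀ n, 2 < n → Rep P1 n n) → ∀ ε : ℝ, 0 < ε →
      ∀ᶠ N : ℕ in atTop, (1 - ε) * Real.log N ≤ (M P1 N : ℝ)) ∧
    ((∀ n, 6 < n → Rep P2 n n) → ∀ ε : ℝ, 0 < ε →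
      ∀ᶠ N : ℕ in atTop, (1 - ε) * Real.log N ≤ (M P2 N : ℝ)) := by
  have hex : ∀ W : ℕ → Prop, (∃ F : Finset ℕ, F.card = 38 ∧ ∀ m ∈ F, 1 ≤ m ∧ W m) →
      ∀ᶠ N : ℕ in atTop, 37 * (N / Real.log N) ≤ (H W N N : ℝ) := by
    rintro W ⟨F, hF, hFW⟩
    filter_upwards [lower W F hFW one_pos] with N h1
    rw [hF] at h1
    push_cast at h1
    linarith
  exact ⟨lower_uniform, fun ε hε => eventually_atTop.1 (upper hε),
    fun W => ⟨tends_finite W, tends_infinite W⟩,
    hex P1 many1, hex P2 many2, fun h ε hε => necessary P1 2 h hε,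
    fun h ε hε => necessary P2 6 h hε⟩

end Pool.Agent.Results.MP_9f1297_nt.WitnessCount
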